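import Pool.Agent.Helper51.PS.G4
import Pool.Agent.Helper51.PS.MOM
import Pool.Agent.Helper51.PS.LCM
import Pool.Agent.Helper51.PS.LINK
import Pool.Agent.Helper51.PS.PHI
import Pool.Agent.Helper51.PS.CNT
import Pool.Agent.Helper51.PS.TUR
import Pool.Agent.Helper51.PS.DIC

/-!
# The exceptional classes and the function psi (for MP_5dd4bb_nt.LargeValuesNegligible)
-/

set_option autoImplicit false

open Finset Filter Topology
open scoped Classical

namespace Pool.Agent.Helper51.VV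

open Pool.Agent.Helper51.PS Pool.Agent.Helper51.PS.Fin4

theorem cls2 : G4.S_CLS2 := by
  have hMOM := MOM.main PHI.main LINK.main CNT.main
  have hone := G1.one hMOM LCM.main TUR.main DIC.main
  exact G4.cls (G3.pos (G2.uni hone))

/-- `psi` -/
noncomputable def ps (X : ℝ) (Q A : ℕ) : ℝ :=
  ∑ n ∈ (Icc 1 ⌊X⌋₊).filter (fun n => n % Q = A), ArithmeticFunction.vonMangoldt n

lemma ps_nonneg (X : ℝ) (Q A : ℕ) : 0 ≤ ps X Q A :=
  sum_nonneg fun _ _ => ArithmeticFunction.vonMangoldt_nonneg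

/-- powers of the logarithm -/
lemma ev_log (C : ℝ) (n : ℕ) (η : ℝ) (hη : 0 < η) : ∀ᶠ Q : ℕ in atTop, C * Real.log Q ^ n ≤ (Q : ℝ) ^ η := by
  have h1 := (Real.isLittleO_pow_log_id_atTop (n := n)).bound (c := η ^ n / (|C| + 1)) (by positivity)
  have h2 : Tendsto (fun Q : ℕ => (Q : ℝ) ^ η) atTop atTop :=
    (tendsto_rpow_atTop hη).comp tendsto_natCast_atTop_atTop
  filter_upwards [h2.eventually h1, eventually_ge_atTop 1] with Q hQ hQ1
  have hQ0 : (1 : ℝ) ≤ Q := by exact_mod_cast hQ1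
  rw [Real.log_rpow (by linarith), id, Real.norm_eq_abs, Real.norm_eq_abs, mul_pow, abs_mul,
    abs_of_nonneg (pow_nonneg hη.le n), abs_of_nonneg (pow_nonneg (Real.log_nonneg hQ0) n),
    abs_of_nonneg (Real.rpow_nonneg (by linarith) η)] at hQ
  have h3 : η ^ n * Real.log Q ^ n * (|C| + 1) ≤ η ^ n * (Q : ℝ) ^ η := by
    calc η ^ n * Real.log Q ^ n * (|C| + 1) ≤ (η ^ n / (|C| + 1) * (Q : ℝ) ^ η) * (|C| + 1) := by gcongr
      _ = _ := by field_simp
  have h4 : (|C| + 1) * Real.log Q ^ n ≤ (Q : ℝ) ^ η := by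
    have h5 : 0 < η ^ n := by positivity
    have h6 : η ^ n * ((|C| + 1) * Real.log Q ^ n) ≤ η ^ n * (Q : ℝ) ^ η := by linarith
    exact le_of_mul_le_mul_left h6 h5
  refine le_trans ?_ h4
  have h7 : 0 ≤ Real.log Q ^ n := pow_nonneg (Real.log_nonneg hQ0) n
  have h8 : C ≤ |C| + 1 := by linarith [le_abs_self C]
  exact mul_le_mul_of_nonneg_right h8 h7

/-- the classes of proper prime powers -/
noncomputable def E2 (Q Y : ℕ) : Finset ℕ :=
  (range Q).filter (fun A => ∃ p j : ℕ, p.Prime ∧ 2 ≤ j ∧ p ^ j ≤ Y ∧ p ^ j % Q = A)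

lemma card_E2 (Q Y : ℕ) : (E2 Q Y).card ≤ Nat.sqrt Y * (Nat.log 2 Y + 1) := by
  have h : E2 Q Y ⊆ ((Icc 1 (Nat.sqrt Y)) ×ˢ range (Nat.log 2 Y + 1)).image (fun x => x.1 ^ x.2 % Q) := by
    intro A hA
    unfold E2 at hA
    rw [mem_filter] at hA
    obtain ⟨_, p, j, hp, hj, hY, rfl⟩ := hA
    rw [mem_image]
    refine ⟨(p, j), ?_, rfl⟩
    rw [mem_product, mem_Icc, mem_range]
    refine ⟨⟨hp.one_le, ?_⟩, ?_⟩
    · rw [Nat.le_sqrt, ← pow_two]
      exact (Nat.pow_le_pow_right hp.pos hj).trans hY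
    · have h0 : Y ≠ 0 := by
        have := Nat.pos_of_ne_zero (pow_ne_zero j hp.ne_zero)
        omega
      have : j ≤ Nat.log 2 Y := Nat.le_log_of_pow_le (by norm_num)
        ((Nat.pow_le_pow_left hp.two_le j).trans hY)
      show j < Nat.log 2 Y + 1
      omega
  refine (card_le_card h).trans (card_image_le.trans ?_)
  rw [card_product, Nat.card_Icc, card_range]
  simp

/-- `ψ ≤ log X N` for the classes without proper prime powers -/
lemma ps_le {X : ℝ} {Q A Y : ℕ} (hX1 : 1 ≤ X) (hXY : ⌊X⌋₊ ≤ Y) (hA : A < Q)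
    (hE : A ∉ E2 Q Y) : ps X Q A ≤ Real.log X * N X X Q A := by
  unfold ps
  have h1 : ∑ n ∈ (Icc 1 ⌊X⌋₊).filter (fun n => n % Q = A), ArithmeticFunction.vonMangoldt n ≤
      ∑ n ∈ (Icc 1 ⌊X⌋₊).filter (fun n => n % Q = A), if n.Prime then Real.log X else 0 := by
    apply sum_le_sum
    intro n hn
    rw [mem_filter, mem_Icc] at hn
    split_ifs with hp
    · rw [ArithmeticFunction.vonMangoldt_apply_prime hp]
      apply Real.log_le_log (by exact_mod_cast hn.1.1)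
      calc (n : ℝ) ≤ (⌊X⌋₊ : ℝ) := by exact_mod_cast hn.1.2
        _ ≤ X := Nat.floor_le (by linarith)
    · rw [ArithmeticFunction.vonMangoldt_eq_zero_iff.2]
      intro hpp
      rw [isPrimePow_nat_iff] at hpp
      obtain ⟨p, j, hpr, hj, rfl⟩ := hpp
      apply hE
      unfold E2
      rw [mem_filter, mem_range]
      refine ⟨hA, p, j, hpr, ?_, hn.1.2.trans hXY, hn.2⟩
      by_contra hj2
      have : j = 1 := by omega
      subst this
      rw [pow_one] at hp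
      exact hp hpr
  refine h1.trans ?_
  rw [← sum_filter, sum_const, nsmul_eq_mul, mul_comm, filter_filter]
  apply mul_le_mul_of_nonneg_left _ (Real.log_nonneg hX1)
  apply Nat.cast_le.2
  unfold N
  rw [← Set.ncard_coe_finset]
  apply Set.ncard_le_ncard
  · intro n hn
    rw [mem_coe, mem_filter, mem_Icc] at hn
    obtain ⟨⟨hn1, hn2⟩, hn3, hn4⟩ := hn
    refine ⟨hn4, ?_, ?_, ?_⟩
    · rw [sub_self]
      exact_mod_cast hn1
    · calc (n : ℝ) ≤ (⌊X⌋₊ : ℝ) := by exact_mod_cast hn2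
        _ ≤ X := Nat.floor_le (by linarith)
    · unfold Nat.ModEq
      rw [hn3, Nat.mod_eq_of_lt hA]
  · apply (Set.finite_Icc 0 ⌊X⌋₊).subset
    intro n hn
    exact ⟨Nat.zero_le _, Nat.le_floor hn.2.2.1⟩

/-- the trivial bound -/
lemma ps_triv {X : ℝ} {Q A : ℕ} (hQ : 1 ≤ Q) (hX : (Q : ℝ) ≤ X) : ps X Q A ≤ 2 * (X / Q) * Real.log X := by
  have hQ0 : (1 : ℝ) ≤ Q := by exact_mod_cast hQ
  have hX1 : 1 ≤ X := hQ0.trans hX
  have hl : 0 ≤ Real.log X := Real.log_nonneg hX1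
  unfold ps
  have h1 : ∑ n ∈ (Icc 1 ⌊X⌋₊).filter (fun n => n % Q = A), ArithmeticFunction.vonMangoldt n ≤
      ∑ n ∈ (Icc 1 ⌊X⌋₊).filter (fun n => n % Q = A), Real.log X := by
    apply sum_le_sum
    intro n hn
    rw [mem_filter, mem_Icc] at hn
    refine ArithmeticFunction.vonMangoldt_le_log.trans ?_
    apply Real.log_le_log (by exact_mod_cast hn.1.1)
    calc (n : ℝ) ≤ (⌊X⌋₊ : ℝ) := by exact_mod_cast hn.1.2
      _ ≤ X := Nat.floor_le (by linarith)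
  refine h1.trans ?_
  rw [sum_const, nsmul_eq_mul]
  apply mul_le_mul_of_nonneg_right _ hl
  have h2 : ((Icc 1 ⌊X⌋₊).filter (fun n => n % Q = A)).card ≤ ⌊X⌋₊ / Q + 1 := by
    have h3 : (Icc 1 ⌊X⌋₊).filter (fun n => n % Q = A) ⊆ (range (⌊X⌋₊ / Q + 1)).image (fun t => Q * t + A) := by
      intro n hn
      rw [mem_filter, mem_Icc] at hn
      rw [mem_image]
      refine ⟨n / Q, mem_range.2 (Nat.lt_succ_of_le (Nat.div_le_div_right hn.1.2)), ?_⟩
      rw [← hn.2]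
      exact Nat.div_add_mod n Q
    calc _ ≤ _ := card_le_card h3
      _ ≤ (range (⌊X⌋₊ / Q + 1)).card := card_image_le
      _ = _ := card_range _
  have h4 : ((⌊X⌋₊ / Q : ℕ) : ℝ) ≤ X / Q := by
    calc ((⌊X⌋₊ / Q : ℕ) : ℝ) ≤ (⌊X⌋₊ : ℝ) / Q := Nat.cast_div_le
      _ ≤ X / Q := by
        apply div_le_div_of_nonneg_right (Nat.floor_le (by linarith)) (by linarith)
  have h5 : 1 ≤ X / Q := by rw [le_div_iff₀ (by linarith)]; linarith
  calc (((Icc 1 ⌊X⌋₊).filter (fun n => n % Q = A)).card : ℝ) ≤ ((⌊X⌋₊ / Q + 1 : ℕ) : ℝ) := by exact_mod_cast h2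
    _ = ((⌊X⌋₊ / Q : ℕ) : ℝ) + 1 := by push_cast; ring
    _ ≤ 2 * (X / Q) := by linarith

/-- **the exceptional set** -/
theorem exists_E (δ : ℝ) (hδ : 0 < δ) : ∃ c : ℝ, 0 < c ∧ c ≤ 1 / 4 ∧ ∀ᶠ Q : ℕ in atTop, ∃ E ⊆ range Q,
    (E.card : ℝ) ≤ 3 * (Q : ℝ) ^ (1 - c) ∧ ∀ X : ℝ, Q * Real.log Q ^ 5 ≤ X → X ≤ (Q : ℝ) ^ (1 + c) →
      ∀ A < Q, A ∉ E → ps X Q A ≤ δ * (X / Nat.totient Q) * (Real.log X / Real.log (X / Q)) := by
  obtain ⟨c₁, H₀, hc, hc1, hH₀, h⟩ := cls2 δ hδ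
  refine ⟨min c₁ (1 / 4), by positivity, min_le_right _ _, ?_⟩
  have hlogt : Tendsto (fun Q : ℕ => Real.log Q ^ 5) atTop atTop :=
    (tendsto_pow_atTop (by norm_num)).comp (Real.tendsto_log_atTop.comp tendsto_natCast_atTop_atTop)
  filter_upwards [ev_log 4 1 (1 / 8) (by norm_num), hlogt.eventually_ge_atTop H₀,
    hlogt.eventually_ge_atTop (720 ^ 5), hlogt.eventually_ge_atTop 1, eventually_ge_atTop 3] with Q e1 e2 e3 e3' e4
  have hQ3 : (3 : ℝ) ≤ Q := by exact_mod_cast e4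
  have hQ0 : (0 : ℝ) < Q := by linarith
  have hl1 : 1 ≤ Real.log Q := by
    rw [Real.le_log_iff_exp_le hQ0]
    linarith [Real.exp_one_lt_d9]
  set E1 := (range Q).filter (fun l : ℕ => ∃ x y : ℝ, y ≤ x ∧ Q * (Real.log Q ^ 5) ≤ y ∧ y ≤ (Q : ℝ) ^ (1 + c₁) ∧
    |x - (0 : ℕ)| ≤ Q * min (Real.exp ((y / Q) ^ (1 / 5 : ℝ))) ((Q : ℝ) ^ c₁) ∧
    δ * y / (Nat.totient Q * Real.log (y / Q)) < N x y Q l) with hE1
  have hcard1 : (E1.card : ℝ) ≤ 1 + (Q : ℝ) ^ (1 - c₁) := by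
    have h1 := h Q (Real.log Q ^ 5) (by omega) e2 0
    have h2 : (Real.log Q ^ 5) ^ (1 / 5 : ℝ) = Real.log Q := by
      rw [← Real.rpow_natCast, ← Real.rpow_mul (by linarith)]
      norm_num
    rw [h2, Real.exp_neg, Real.exp_log hQ0, mul_inv_cancel₀ hQ0.ne'] at h1
    exact h1
  set Y := ⌊(Q : ℝ) ^ (1 + 1 / 4 : ℝ)⌋₊ with hY
  have hYr : (Y : ℝ) ≤ (Q : ℝ) ^ (5 / 4 : ℝ) := by
    have := Nat.floor_le (Real.rpow_nonneg hQ0.le (1 + 1 / 4 : ℝ))
    rw [hY]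
    refine this.trans (le_of_eq ?_)
    norm_num
  have hY1 : 1 ≤ Y := by
    apply Nat.le_floor
    rw [Nat.cast_one]
    exact Real.one_le_rpow (by linarith) (by norm_num)
  have hcard2 : ((E2 Q Y).card : ℝ) ≤ (Q : ℝ) ^ (3 / 4 : ℝ) := by
    have h1 := card_E2 Q Y
    have h2 : (Nat.sqrt Y : ℝ) ≤ (Q : ℝ) ^ (5 / 8 : ℝ) := by
      have h3 : (Nat.sqrt Y : ℝ) ^ 2 ≤ Y := by exact_mod_cast Nat.sqrt_le' Y
      have h4 : ((Q : ℝ) ^ (5 / 8 : ℝ)) ^ 2 = (Q : ℝ) ^ (5 / 4 : ℝ) := by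
        rw [← Real.rpow_natCast, ← Real.rpow_mul hQ0.le]
        norm_num
      apply le_of_sq_le_sq _ (by positivity)
      rw [h4]
      exact h3.trans hYr
    have h3 : (Nat.log 2 Y : ℝ) ≤ 3 * Real.log Q := by
      have h4 : ((2 : ℝ)) ^ (Nat.log 2 Y) ≤ Y := by
        exact_mod_cast Nat.pow_log_le_self 2 (by omega)
      have h5 := Real.log_le_log (by positivity) (h4.trans hYr)
      rw [Real.log_pow, Real.log_rpow hQ0] at h5
      have h6 := Real.log_two_gt_d9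
      have h7 : (0 : ℝ) ≤ (Nat.log 2 Y : ℝ) := Nat.cast_nonneg _
      nlinarith
    calc ((E2 Q Y).card : ℝ) ≤ ((Nat.sqrt Y * (Nat.log 2 Y + 1) : ℕ) : ℝ) := by exact_mod_cast h1
      _ = (Nat.sqrt Y : ℝ) * (Nat.log 2 Y + 1) := by push_cast; ring
      _ ≤ (Q : ℝ) ^ (5 / 8 : ℝ) * (4 * Real.log Q) := by
        apply mul_le_mul h2 (by linarith) (by positivity) (by positivity)
      _ ≤ (Q : ℝ) ^ (5 / 8 : ℝ) * (Q : ℝ) ^ (1 / 8 : ℝ) := by
        apply mul_le_mul_of_nonneg_left _ (by positivity)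
        rw [pow_one] at e1
        exact e1
      _ = (Q : ℝ) ^ (3 / 4 : ℝ) := by
        rw [← Real.rpow_add hQ0]
        norm_num
  have hmc : min c₁ (1 / 4) ≤ c₁ := min_le_left _ _
  have hm4 : min c₁ (1 / 4) ≤ 1 / 4 := min_le_right _ _
  refine ⟨E1 ∪ E2 Q Y, union_subset (filter_subset _ _) (filter_subset _ _), ?_, ?_⟩
  · have h1 : ((E1 ∪ E2 Q Y).card : ℝ) ≤ E1.card + (E2 Q Y).card := by exact_mod_cast card_union_le _ _
    have h2 : (Q : ℝ) ^ (1 - c₁) ≤ (Q : ℝ) ^ (1 - min c₁ (1 / 4)) :=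
      Real.rpow_le_rpow_of_exponent_le (by linarith) (by linarith)
    have h3 : (Q : ℝ) ^ (3 / 4 : ℝ) ≤ (Q : ℝ) ^ (1 - min c₁ (1 / 4)) :=
      Real.rpow_le_rpow_of_exponent_le (by linarith) (by linarith)
    have h4 : 1 ≤ (Q : ℝ) ^ (1 - min c₁ (1 / 4)) :=
      Real.one_le_rpow (by linarith) (by linarith)
    linarith
  · intro X hX1 hX2 A hA hAE
    rw [mem_union, not_or] at hAE
    have hXQ : (Q : ℝ) ≤ X := by
      refine le_trans ?_ hX1
      exact le_mul_of_one_le_right hQ0.le e3'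
    have hX0 : 0 < X := by linarith
    have hX2' : X ≤ (Q : ℝ) ^ (1 + c₁) :=
      hX2.trans (Real.rpow_le_rpow_of_exponent_le (by linarith) (by linarith))
    have hXY : ⌊X⌋₊ ≤ Y := by
      apply Nat.floor_le_floor
      exact hX2.trans (Real.rpow_le_rpow_of_exponent_le (by linarith) (by linarith))
    have hps := ps_le (by linarith) hXY hA hAE.2
    have ht : Real.log Q ^ 5 ≤ X / Q := by
      rw [le_div_iff₀ hQ0]
      linarith
    have hN : (N X X Q A : ℝ) ≤ δ * X / (Nat.totient Q * Real.log (X / Q)) := by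
      by_contra hcon
      rw [not_le] at hcon
      apply hAE.1
      rw [hE1, mem_filter, mem_range]
      refine ⟨hA, X, X, le_rfl, hX1, hX2', ?_, hcon⟩
      rw [Nat.cast_zero, sub_zero, abs_of_pos hX0]
      have h1 : X = Q * (X / Q) := by field_simp
      have h2 : X / Q ≤ Real.exp ((X / Q) ^ (1 / 5 : ℝ)) := by
        set t := X / Q with htd
        have ht0 : (720 : ℝ) ^ 5 ≤ t := e3.trans ht
        have ht00 : 0 ≤ t := le_trans (by norm_num) ht0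
        have h3 : (720 : ℝ) ≤ t ^ (1 / 5 : ℝ) := by
          calc (720 : ℝ) = ((720 : ℝ) ^ 5) ^ (1 / 5 : ℝ) := by
                rw [← Real.rpow_natCast, ← Real.rpow_mul (by norm_num)]
                norm_num
            _ ≤ t ^ (1 / 5 : ℝ) := Real.rpow_le_rpow (by norm_num) ht0 (by norm_num)
        have h4 : t = (t ^ (1 / 5 : ℝ)) ^ 5 := by
          rw [← Real.rpow_natCast, ← Real.rpow_mul ht00]
          norm_num
        have h5 := Real.pow_div_factorial_le_exp (t ^ (1 / 5 : ℝ)) (by positivity) 6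
        refine le_trans ?_ h5
        have h6 : (Nat.factorial 6 : ℝ) = 720 := by norm_num [Nat.factorial]
        rw [h6, le_div_iff₀ (by norm_num)]
        calc t * 720 = (t ^ (1 / 5 : ℝ)) ^ 5 * 720 := by rw [← h4]
          _ ≤ (t ^ (1 / 5 : ℝ)) ^ 5 * t ^ (1 / 5 : ℝ) := by gcongr
          _ = _ := by ring
      have h3 : X / Q ≤ (Q : ℝ) ^ c₁ := by
        rw [div_le_iff₀ hQ0]
        refine hX2'.trans (le_of_eq ?_)
        rw [Real.rpow_add hQ0, Real.rpow_one]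
        ring
      calc X = Q * (X / Q) := h1
        _ ≤ _ := mul_le_mul_of_nonneg_left (le_min h2 h3) hQ0.le
    have hlX : 0 ≤ Real.log X := Real.log_nonneg (by linarith)
    calc ps X Q A ≤ Real.log X * N X X Q A := hps
      _ ≤ Real.log X * (δ * X / (Nat.totient Q * Real.log (X / Q))) :=
        mul_le_mul_of_nonneg_left hN hlX
      _ = _ := by
        rw [div_eq_mul_inv, mul_inv, div_eq_mul_inv, div_eq_mul_inv]
        ring

end Pool.Agent.Helper51.VV
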